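import Mathlib
import Pool.Agent.Helper850.CF.Final

set_option autoImplicit false

open Finset Filter Topology

namespace Pool.Agent.Results.MP_d479ed_co.LimitFiveTwelfths

/-- A set meeting every open neighbourhood. -/
def IsTotalDominating {V : Type} (G : SimpleGraph V) (S : Finset V) : Prop :=
  ∀ v, ∃ u ∈ S, G.Adj v u

/-- The total domination number. -/
noncomputable def totalDomNum {V : Type} (G : SimpleGraph V) : ℕ :=
  sInf {k : ℕ | ∃ S : Finset V, IsTotalDominating G S ∧ S.card = k}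

/-- Every vertex has exactly three neighbours. -/
def IsCubic {V : Type} (G : SimpleGraph V) : Prop := ∀ v, (G.neighborSet v).ncard = 3

/-- No induced star with three leaves. -/
def IsClawFree {V : Type} (G : SimpleGraph V) : Prop :=
  ∀ v a b c : V, G.Adj v a → G.Adj v b → G.Adj v c → a ≠ b → a ≠ c → b ≠ c →
    G.Adj a b ∨ G.Adj a c ∨ G.Adj b c

/-- The set of ratios total domination number / order over the connected claw-free cubic graphs
of order at least `2 k`. -/
def ratios (k : ℕ) : Set ℝ :=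
  {q : ℝ | ∃ (V : Type) (_ : Fintype V) (G : SimpleGraph V), G.Connected ∧ IsCubic G ∧
    IsClawFree G ∧ 2 * k ≤ Fintype.card V ∧ q = (totalDomNum G : ℝ) / (Fintype.card V : ℝ)}

/-- The supremum `f_t(k)`. -/
noncomputable def ft (k : ℕ) : ℝ := sSup (ratios k)

/-! ### The graphs -/

/-- Neighbour table of a unit: the three neighbours of each of the `24` vertices, with a shift
(`0` same unit, `1` next unit, `2` previous unit). -/
def nb : Fin 24 → Fin 3 → Fin 3 × Fin 24 :=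
  ![![(0, 1), (0, 2), (2, 1)],
    ![(0, 0), (0, 2), (1, 0)],
    ![(0, 0), (0, 1), (0, 3)],
    ![(0, 2), (0, 4), (0, 5)],
    ![(0, 3), (0, 5), (0, 6)],
    ![(0, 3), (0, 4), (0, 13)],
    ![(0, 4), (0, 7), (0, 8)],
    ![(0, 6), (0, 8), (0, 9)],
    ![(0, 6), (0, 7), (0, 10)],
    ![(0, 7), (0, 11), (0, 12)],
    ![(0, 8), (0, 11), (0, 12)],
    ![(0, 9), (0, 10), (0, 12)],
    ![(0, 9), (0, 10), (0, 11)],
    ![(0, 5), (0, 14), (0, 15)],
    ![(0, 13), (0, 15), (0, 16)],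
    ![(0, 13), (0, 14), (0, 16)],
    ![(0, 14), (0, 15), (0, 17)],
    ![(0, 16), (0, 18), (0, 19)],
    ![(0, 17), (0, 19), (0, 20)],
    ![(0, 17), (0, 18), (0, 21)],
    ![(0, 18), (0, 22), (0, 23)],
    ![(0, 19), (0, 22), (0, 23)],
    ![(0, 20), (0, 21), (0, 23)],
    ![(0, 20), (0, 21), (0, 22)]]

/-- The shift as an element of `ZMod m`. -/
def sh (m : ℕ) (s : Fin 3) : ZMod m := ![0, 1, -1] s

/-- The `t`-th neighbour of `v`. -/
def nbr (m : ℕ) (v : ZMod m × Fin 24) (t : Fin 3) : ZMod m × Fin 24 :=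
  (v.1 + sh m (nb v.2 t).1, (nb v.2 t).2)

/-- The opposite shift. -/
def opp : Fin 3 → Fin 3 := ![0, 2, 1]

lemma sh_opp (m : ℕ) (s : Fin 3) : sh m (opp s) = - sh m s := by
  fin_cases s <;> simp [sh, opp]

lemma nb_symm : ∀ (j : Fin 24) (t : Fin 3), ∃ t' : Fin 3,
    nb (nb j t).2 t' = (opp (nb j t).1, j) := by decide

lemma nb_ne : ∀ (j : Fin 24) (t : Fin 3), (nb j t).2 ≠ j := by decide

/-- The ring of `m` units. -/
def ring (m : ℕ) : SimpleGraph (ZMod m × Fin 24) where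
  Adj u v := ∃ t, nbr m u t = v
  symm := ⟨by
    rintro ⟨i, j⟩ v ⟨t, rfl⟩
    obtain ⟨t', ht'⟩ := nb_symm j t
    refine ⟨t', ?_⟩
    simp only [nbr]
    rw [ht']
    simp [sh_opp]⟩
  loopless := ⟨by
    rintro ⟨i, j⟩ ⟨t, ht⟩
    exact nb_ne j t (congrArg Prod.snd ht)⟩

lemma ring_adj {m : ℕ} (u v : ZMod m × Fin 24) : (ring m).Adj u v ↔ ∃ t, nbr m u t = v := Iff.rfl

lemma nb_inj : ∀ (j : Fin 24) (t t' : Fin 3), t ≠ t' → (nb j t).2 = (nb j t').2 →
    ((nb j t).1 = 0 ∧ (nb j t').1 ≠ 0) ∨ ((nb j t).1 ≠ 0 ∧ (nb j t').1 = 0) := by decide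

lemma sh_zero_iff {m : ℕ} (hm : 2 ≤ m) (s : Fin 3) : sh m s = 0 ↔ s = 0 := by
  have : Fact (1 < m) := ⟨by omega⟩
  have : Nontrivial (ZMod m) := ZMod.nontrivial m
  fin_cases s <;> simp [sh]

lemma nbr_inj {m : ℕ} (hm : 2 ≤ m) (v : ZMod m × Fin 24) : Function.Injective (nbr m v) := by
  intro t t' h
  by_contra hne
  have h2 : (nb v.2 t).2 = (nb v.2 t').2 := congrArg (fun p : ZMod m × Fin 24 => p.2) h
  have h1 : sh m (nb v.2 t).1 = sh m (nb v.2 t').1 := by
    have := congrArg (fun p : ZMod m × Fin 24 => p.1) h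
    simpa [nbr] using this
  rcases nb_inj v.2 t t' hne h2 with ⟨ha, hb⟩ | ⟨ha, hb⟩
  · apply hb
    rw [← sh_zero_iff hm, ← h1, ha]
    simp [sh]
  · apply ha
    rw [← sh_zero_iff hm, h1, hb]
    simp [sh]

lemma ring_cubic {m : ℕ} (hm : 2 ≤ m) : IsCubic (ring m) := by
  intro v
  have h1 : (ring m).neighborSet v = Set.range (nbr m v) := by
    ext w
    rw [SimpleGraph.mem_neighborSet, ring_adj]
    rfl
  rw [h1, ← Set.image_univ, Set.ncard_image_of_injective _ (nbr_inj hm v), Set.ncard_univ]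
  simp

/-- Two of the three neighbours of a vertex, inside its unit, are adjacent. -/
lemma nb_triangle : ∀ j : Fin 24, ∃ t t' s : Fin 3, t ≠ t' ∧ (nb j t).1 = 0 ∧ (nb j t').1 = 0 ∧
    nb (nb j t).2 s = (0, (nb j t').2) := by decide

lemma ring_clawFree (m : ℕ) : IsClawFree (ring m) := by
  intro v a b c ha hb hc hab hac hbc
  obtain ⟨ta, rfl⟩ := (ring_adj _ _).mp ha
  obtain ⟨tb, rfl⟩ := (ring_adj _ _).mp hb
  obtain ⟨tc, rfl⟩ := (ring_adj _ _).mp hc
  have hab' : ta ≠ tb := fun h => hab (by rw [h])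
  have hac' : ta ≠ tc := fun h => hac (by rw [h])
  have hbc' : tb ≠ tc := fun h => hbc (by rw [h])
  obtain ⟨t, t', s, htt', h1, h2, h3⟩ := nb_triangle v.2
  have hadj : (ring m).Adj (nbr m v t) (nbr m v t') := by
    refine (ring_adj _ _).mpr ⟨s, ?_⟩
    simp only [nbr]
    rw [h3, h1, h2]
    simp [sh]
  have hall' : ∀ ta tb tc x : Fin 3, ta ≠ tb → ta ≠ tc → tb ≠ tc → (x = ta ∨ x = tb ∨ x = tc) := by
    decide
  have hall : ∀ x : Fin 3, x = ta ∨ x = tb ∨ x = tc := fun x => hall' ta tb tc x hab' hac' hbc'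
  rcases hall t with rfl | rfl | rfl <;> rcases hall t' with rfl | rfl | rfl
  · exact absurd rfl htt'
  · exact Or.inl hadj
  · exact Or.inr (Or.inl hadj)
  · exact Or.inl hadj.symm
  · exact absurd rfl htt'
  · exact Or.inr (Or.inr hadj)
  · exact Or.inr (Or.inl hadj.symm)
  · exact Or.inr (Or.inr hadj.symm)
  · exact absurd rfl htt'

lemma nb_parent : ∀ j : Fin 24, j ≠ 0 → ∃ t, (nb j t).1 = 0 ∧ (nb j t).2 < j := by decide

lemma ring_connected {m : ℕ} (hm : 2 ≤ m) : (ring m).Connected := by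
  have : NeZero m := ⟨by omega⟩
  -- inside a unit
  have h1 : ∀ (i : ZMod m) (n : ℕ) (hn : n < 24), (ring m).Reachable (i, 0) (i, ⟨n, hn⟩) := by
    intro i n
    induction n using Nat.strong_induction_on with
    | _ n ih =>
      intro hn
      by_cases h0 : (⟨n, hn⟩ : Fin 24) = 0
      · rw [h0]
      · obtain ⟨t, ht1, ht2⟩ := nb_parent ⟨n, hn⟩ h0
        have h2 := ih (nb ⟨n, hn⟩ t).2.val ht2 (nb ⟨n, hn⟩ t).2.isLt
        refine h2.trans ?_
        apply SimpleGraph.Adj.reachable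
        apply SimpleGraph.Adj.symm
        refine (ring_adj _ _).mpr ⟨t, ?_⟩
        simp only [nbr]
        rw [ht1]
        simp [sh]
  have h2 : ∀ n : ℕ, (ring m).Reachable ((0 : ZMod m), 0) ((n : ZMod m), 0) := by
    intro n
    induction n with
    | zero => simp
    | succ n ih =>
      refine ih.trans ?_
      have h3 : (ring m).Adj ((n : ZMod m), 0) ((n : ZMod m), 1) :=
        (ring_adj _ _).mpr ⟨0, by simp [nbr, nb, sh]⟩
      have h4 : (ring m).Adj ((n : ZMod m), 1) (((n + 1 : ℕ) : ZMod m), 0) :=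
        (ring_adj _ _).mpr ⟨2, by simp [nbr, nb, sh]⟩
      exact h3.reachable.trans h4.reachable
  have hub : ∀ v, (ring m).Reachable ((0 : ZMod m), 0) v := by
    rintro ⟨i, j⟩
    have h5 := h2 i.val
    rw [ZMod.natCast_zmod_val] at h5
    exact h5.trans (h1 i j.val j.isLt)
  exact SimpleGraph.Connected.mk (fun u v => (hub u).symm.trans (hub v))

/-! ### The lower bound for a unit -/

lemma LD_bound {x y z a b c d r : ℕ} (hx : x ≤ 1) (hy : y ≤ 1)
    (h1 : 1 ≤ x + z + a) (h2 : 1 ≤ x + y + b) (h3 : 1 ≤ y + c + d) (h4 : 1 ≤ z + c + d)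
    (h5 : 1 ≤ a + b + d) (h6 : 1 ≤ a + b + c) (h7 : 1 ≤ y + z + r) :
    3 ≤ x + y + z + a + b + c + d ∧ 3 + x ≤ x + y + z + a + b + c + d + r := by
  constructor <;> omega

/-- The weight of the branch of a unit is at least nine. -/
lemma branch_bound (e : Fin 24 → ℕ) (he : ∀ j, e j ≤ 1)
    (h : ∀ j : Fin 24, 3 ≤ j.val → 1 ≤ e (nb j 0).2 + e (nb j 1).2 + e (nb j 2).2) :
    9 ≤ e 3 + e 4 + e 5 + e 6 + e 7 + e 8 + e 9 + e 10 + e 11 + e 12 + e 13 + e 14 + e 15 + e 16 +
      e 17 + e 18 + e 19 + e 20 + e 21 + e 22 + e 23 := by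
  have h4 := h 4 (by decide)
  have h5 := h 5 (by decide)
  have h6 := h 6 (by decide)
  have h7 := h 7 (by decide)
  have h8 := h 8 (by decide)
  have h9 := h 9 (by decide)
  have h10 := h 10 (by decide)
  have h11 := h 11 (by decide)
  have h12 := h 12 (by decide)
  have h13 := h 13 (by decide)
  have h14 := h 14 (by decide)
  have h15 := h 15 (by decide)
  have h16 := h 16 (by decide)
  have h17 := h 17 (by decide)
  have h18 := h 18 (by decide)
  have h19 := h 19 (by decide)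
  have h20 := h 20 (by decide)
  have h21 := h 21 (by decide)
  have h22 := h 22 (by decide)
  have h23 := h 23 (by decide)
  change 1 ≤ e 3 + e 5 + e 6 at h4
  change 1 ≤ e 3 + e 4 + e 13 at h5
  change 1 ≤ e 4 + e 7 + e 8 at h6
  change 1 ≤ e 6 + e 8 + e 9 at h7
  change 1 ≤ e 6 + e 7 + e 10 at h8
  change 1 ≤ e 7 + e 11 + e 12 at h9
  change 1 ≤ e 8 + e 11 + e 12 at h10
  change 1 ≤ e 9 + e 10 + e 12 at h11
  change 1 ≤ e 9 + e 10 + e 11 at h12
  change 1 ≤ e 5 + e 14 + e 15 at h13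
  change 1 ≤ e 13 + e 15 + e 16 at h14
  change 1 ≤ e 13 + e 14 + e 16 at h15
  change 1 ≤ e 14 + e 15 + e 17 at h16
  change 1 ≤ e 16 + e 18 + e 19 at h17
  change 1 ≤ e 17 + e 19 + e 20 at h18
  change 1 ≤ e 17 + e 18 + e 21 at h19
  change 1 ≤ e 18 + e 22 + e 23 at h20
  change 1 ≤ e 19 + e 22 + e 23 at h21
  change 1 ≤ e 20 + e 21 + e 23 at h22
  change 1 ≤ e 20 + e 21 + e 22 at h23
  obtain ⟨p1, p2⟩ := LD_bound (r := e 4) (he 6) (he 7) h7 h8 h9 h10 h11 h12
    (by omega)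
  obtain ⟨q1, q2⟩ := LD_bound (r := e 16) (he 17) (he 18) h18 h19 h20 h21 h22 h23
    (by omega)
  have b5 := he 5
  have b13 := he 13
  have b16 := he 16
  have b17 := he 17
  have b3 := he 3
  have b4 := he 4
  have b6 := he 6
  -- the diamond together with the second loop
  have r1 : 5 ≤ e 13 + e 14 + e 15 + e 16 +
      (e 17 + e 18 + e 19 + e 20 + e 21 + e 22 + e 23) + e 5 := by omega
  have r2 : 4 + e 13 ≤ e 13 + e 14 + e 15 + e 16 +
      (e 17 + e 18 + e 19 + e 20 + e 21 + e 22 + e 23) := by omega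
  omega

/-- Every total dominating set of the ring of `m` units has at least `10 m` vertices. -/
lemma ring_bound {m : ℕ} [NeZero m] (S : Finset (ZMod m × Fin 24))
    (hS : IsTotalDominating (ring m) S) : 10 * m ≤ S.card := by
  classical
  let e : ZMod m → Fin 24 → ℕ := fun i j => if (i, j) ∈ S then 1 else 0
  have he : ∀ i j, e i j ≤ 1 := by
    intro i j; simp only [e]; split_ifs <;> omega
  have hdom : ∀ i j, 1 ≤ e (nbr m (i, j) 0).1 (nbr m (i, j) 0).2 +
      e (nbr m (i, j) 1).1 (nbr m (i, j) 1).2 + e (nbr m (i, j) 2).1 (nbr m (i, j) 2).2 := by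
    intro i j
    obtain ⟨u, huS, hu⟩ := hS (i, j)
    obtain ⟨t, rfl⟩ := (ring_adj _ _).mp hu
    have hone : e (nbr m (i, j) t).1 (nbr m (i, j) t).2 = 1 := by
      simp only [e]
      rw [if_pos huS]
    fin_cases t
    · simp only [Fin.zero_eta, Fin.isValue] at hone
      omega
    · simp only [Fin.mk_one, Fin.isValue] at hone
      omega
    · simp only [Fin.reduceFinMk, Fin.isValue] at hone
      omega
  have hin : ∀ i, ∀ j : Fin 24, 2 ≤ j.val → 1 ≤ e i (nb j 0).2 + e i (nb j 1).2 + e i (nb j 2).2 := by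
    intro i j hj
    have h1 := hdom i j
    have h2 : ∀ t, (nbr m (i, j) t).1 = i := by
      intro t
      have h3 : ∀ j : Fin 24, 2 ≤ j.val → ∀ t, (nb j t).1 = 0 := by decide
      simp only [nbr]
      rw [h3 j hj t]
      simp [sh]
    rw [h2, h2, h2] at h1
    exact h1
  let sp : ZMod m → ℕ := fun i => e i 0 + e i 1 + e i 2
  let y : ZMod m → ℕ := fun i => if sp i = 0 then 1 else 0
  -- branches
  have hbr : ∀ i, 9 + sp i ≤ ∑ j, e i j := by
    intro i
    have h1 := branch_bound (e i) (he i) (fun j hj => hin i j (by omega))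
    have h2 : ∑ j, e i j = e i 0 + e i 1 + e i 2 + (e i 3 + e i 4 + e i 5 + e i 6 + e i 7 + e i 8 +
        e i 9 + e i 10 + e i 11 + e i 12 + e i 13 + e i 14 + e i 15 + e i 16 +
        e i 17 + e i 18 + e i 19 + e i 20 + e i 21 + e i 22 + e i 23) := by
      simp only [Fin.sum_univ_succ, Fin.sum_univ_zero]
      change e i 0 + (e i 1 + (e i 2 + (e i 3 + (e i 4 + (e i 5 + (e i 6 + (e i 7 + (e i 8 +
        (e i 9 + (e i 10 + (e i 11 + (e i 12 + (e i 13 + (e i 14 + (e i 15 + (e i 16 +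
        (e i 17 + (e i 18 + (e i 19 + (e i 20 + (e i 21 + (e i 22 + (e i 23 + 0)))))))))))))))))))))))
        = _
      omega
    rw [h2]
    simp only [sp]
    omega
  -- spine
  have hsp : ∀ i, 1 + y i ≤ sp (i + 1) + y (i + 1) := by
    intro i
    by_cases hi : sp i = 0
    · have hy : y i = 1 := by simp only [y]; rw [if_pos hi]
      have h1 := hdom i 1
      have h2 := hdom (i + 1) 0
      have e1 : nbr m (i, 1) 0 = (i, 0) := by simp [nbr, nb, sh]
      have e2 : nbr m (i, 1) 1 = (i, 2) := by simp [nbr, nb, sh]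
      have e3 : nbr m (i, 1) 2 = (i + 1, 0) := by simp [nbr, nb, sh]
      have e4 : nbr m (i + 1, 0) 0 = (i + 1, 1) := by simp [nbr, nb, sh]
      have e5 : nbr m (i + 1, 0) 1 = (i + 1, 2) := by simp [nbr, nb, sh]
      have e6 : nbr m (i + 1, 0) 2 = (i, 1) := by simp [nbr, nb, sh]
      rw [e1, e2, e3] at h1
      rw [e4, e5, e6] at h2
      simp only at h1 h2
      have b0 := he (i + 1) 0
      simp only [sp] at hi ⊢
      omega
    · have hy : y i = 0 := by simp only [y]; rw [if_neg hi]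
      rw [hy]
      by_cases hi' : sp (i + 1) = 0
      · have : y (i + 1) = 1 := by simp only [y]; rw [if_pos hi']
        omega
      · omega
  have hshift : ∀ f : ZMod m → ℕ, ∑ i, f (i + 1) = ∑ i, f i := fun f =>
    Equiv.sum_comp (Equiv.addRight (1 : ZMod m)) f
  have hsum : m ≤ ∑ i, sp i := by
    have h1 : ∑ i : ZMod m, (1 + y i) ≤ ∑ i, (sp (i + 1) + y (i + 1)) :=
      Finset.sum_le_sum (fun i _ => hsp i)
    rw [Finset.sum_add_distrib, Finset.sum_add_distrib, hshift sp, hshift y] at h1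
    have h2 : ∑ _i : ZMod m, 1 = m := by simp
    omega
  have hcard : S.card = ∑ i, ∑ j, e i j := by
    rw [Finset.card_eq_sum_ones, ← Finset.sum_product']
    simp only [e]
    rw [Finset.sum_ite_mem]
    simp
  have hfin : ∑ i : ZMod m, (9 + sp i) ≤ ∑ i, ∑ j, e i j := Finset.sum_le_sum (fun i _ => hbr i)
  rw [Finset.sum_add_distrib] at hfin
  have h3 : ∑ _i : ZMod m, 9 = 9 * m := by simp [mul_comm]
  omega

lemma univ_td {V : Type} [Fintype V] {G : SimpleGraph V} (hG : IsCubic G) :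
    IsTotalDominating G Finset.univ := by
  intro v
  have h1 : (G.neighborSet v).Nonempty := by
    apply Set.nonempty_of_ncard_ne_zero
    rw [hG v]
    norm_num
  obtain ⟨u, hu⟩ := h1
  exact ⟨u, Finset.mem_univ u, hu⟩

lemma ratios_bdd (k : ℕ) : BddAbove (ratios k) := by
  refine ⟨1, ?_⟩
  rintro q ⟨V, _, G, -, hc, -, -, rfl⟩
  have h1 : totalDomNum G ≤ Fintype.card V := Nat.sInf_le ⟨Finset.univ, univ_td hc, rfl⟩
  apply div_le_one_of_le₀
  · exact_mod_cast h1
  · positivity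

lemma le_ft (k : ℕ) : 5 / 12 ≤ ft k := by
  have hm : 2 ≤ k + 2 := by omega
  have : NeZero (k + 2) := ⟨by omega⟩
  have hcard : Fintype.card (ZMod (k + 2) × Fin 24) = (k + 2) * 24 := by
    rw [Fintype.card_prod, ZMod.card, Fintype.card_fin]
  refine le_csSup_of_le (ratios_bdd k) ⟨ZMod (k + 2) × Fin 24, inferInstance, ring (k + 2),
    ring_connected hm, ring_cubic hm, ring_clawFree _, ?_, rfl⟩ ?_
  · rw [hcard]; omega
  · have hne : {c : ℕ | ∃ S : Finset (ZMod (k + 2) × Fin 24),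
        IsTotalDominating (ring (k + 2)) S ∧ S.card = c}.Nonempty :=
      ⟨_, Finset.univ, univ_td (ring_cubic hm), rfl⟩
    obtain ⟨S, hS, hc⟩ := Nat.sInf_mem hne
    have h1 := ring_bound S hS
    have h2 : 10 * (k + 2) ≤ totalDomNum (ring (k + 2)) := by
      have : totalDomNum (ring (k + 2)) = S.card := hc.symm
      omega
    rw [hcard]
    have h3 : (10 * ((k : ℝ) + 2)) ≤ (totalDomNum (ring (k + 2)) : ℝ) := by exact_mod_cast h2
    have h4 : (0 : ℝ) < (k : ℝ) + 2 := by positivity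
    push_cast
    rw [div_le_div_iff₀ (by norm_num) (by positivity)]
    nlinarith

lemma ft_antitone : Antitone ft := by
  intro a b hab
  apply csSup_le_csSup (ratios_bdd a)
  · have : NeZero (b + 2) := ⟨by omega⟩
    refine ⟨_, ZMod (b + 2) × Fin 24, inferInstance, ring (b + 2), ring_connected (by omega),
      ring_cubic (by omega), ring_clawFree _, ?_, rfl⟩
    rw [Fintype.card_prod, ZMod.card, Fintype.card_fin]
    omega
  · rintro q ⟨V, hV, G, h1, h2, h3, h4, h5⟩
    exact ⟨V, hV, G, h1, h2, h3, by omega, h5⟩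

/-! ### The upper bound -/

lemma cub_of_cubic {V : Type} {G : SimpleGraph V} (h : IsCubic G) : Helper850.CF.Cub G := by
  intro v
  obtain ⟨a, b, c, h1, h2, h3, h4⟩ := Set.ncard_eq_three.1 (h v)
  refine ⟨a, b, c, h1, h2, h3, fun u => ?_⟩
  rw [← SimpleGraph.mem_neighborSet, h4]
  simp

/-- `12 γ_t ≤ 5 n + 64` for every connected claw-free cubic graph. -/
lemma totalDomNum_le {V : Type} [Fintype V] (G : SimpleGraph V) (hconn : G.Connected)
    (hc : IsCubic G) (hf : IsClawFree G) : 12 * totalDomNum G ≤ 5 * Fintype.card V + 64 := by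
  classical
  obtain ⟨S, hS, hcard⟩ := Helper850.CF.upper (cub_of_cubic hc) hf hconn
  have h1 : totalDomNum G ≤ S.card := Nat.sInf_le ⟨S, hS, rfl⟩
  omega

lemma ratios_nonempty (k : ℕ) : (ratios k).Nonempty := by
  have : NeZero (k + 2) := ⟨by omega⟩
  refine ⟨_, ZMod (k + 2) × Fin 24, inferInstance, ring (k + 2), ring_connected (by omega),
    ring_cubic (by omega), ring_clawFree _, ?_, rfl⟩
  rw [Fintype.card_prod, ZMod.card, Fintype.card_fin]
  omega

lemma ft_le {k : ℕ} (hk : 1 ≤ k) : ft k ≤ 5 / 12 + (8 / 3) / (k : ℝ) := by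
  refine csSup_le (ratios_nonempty k) ?_
  rintro q ⟨V, _, G, h1, h2, h3, h4, rfl⟩
  have h5 : 12 * totalDomNum G ≤ 5 * Fintype.card V + 64 := totalDomNum_le G h1 h2 h3
  have h6 : (12 : ℝ) * (totalDomNum G : ℝ) ≤ 5 * (Fintype.card V : ℝ) + 64 := by exact_mod_cast h5
  have h7 : (2 : ℝ) * (k : ℝ) ≤ (Fintype.card V : ℝ) := by exact_mod_cast h4
  have hk0 : (0 : ℝ) < k := by exact_mod_cast hk
  have hn0 : (0 : ℝ) < (Fintype.card V : ℝ) := by linarith
  rw [div_le_iff₀ hn0]
  have h8 : (8 / 3) / (k : ℝ) * (Fintype.card V : ℝ) ≥ 16 / 3 := by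
    rw [ge_iff_le, div_mul_eq_mul_div, le_div_iff₀ hk0]
    nlinarith
  nlinarith

/-- The limit of `f_t(k)` is `5/12`. Moreover the sets whose suprema are taken are nonempty and
bounded above, `5/12 ≤ f_t(k) ≤ 5/12 + (8/3)/k` for all `k ≥ 1`, and every connected claw-free
cubic graph of order `n` has total domination number at most `(5 n + 64) / 12`. -/
theorem result : Tendsto ft atTop (𝓝 (5 / 12)) ∧
    (∀ k, (ratios k).Nonempty ∧ BddAbove (ratios k)) ∧
    (∀ k : ℕ, 1 ≤ k → 5 / 12 ≤ ft k ∧ ft k ≤ 5 / 12 + (8 / 3) / (k : ℝ)) ∧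
    ∀ (V : Type) [Fintype V] (G : SimpleGraph V), G.Connected → IsCubic G → IsClawFree G →
      12 * totalDomNum G ≤ 5 * Fintype.card V + 64 := by
  refine ⟨?_, fun k => ⟨ratios_nonempty k, ratios_bdd k⟩, fun k hk => ⟨le_ft k, ft_le hk⟩,
    fun V _ G h1 h2 h3 => totalDomNum_le G h1 h2 h3⟩
  have hlim : Tendsto (fun k : ℕ => 5 / 12 + (8 / 3) / (k : ℝ)) atTop (𝓝 (5 / 12 + 0)) :=
    tendsto_const_nhds.add (tendsto_const_div_atTop_nhds_zero_nat _)
  rw [add_zero] at hlim
  refine tendsto_of_tendsto_of_tendsto_of_le_of_le' tendsto_const_nhds hlim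
    (Eventually.of_forall le_ft) ?_
  filter_upwards [eventually_ge_atTop 1] with k hk
  exact ft_le hk

end Pool.Agent.Results.MP_d479ed_co.LimitFiveTwelfths
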